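import Pool.Agent.Lib.MP_fe4422_gt.Main

/-!
# MP_fe4422_gt: a chainable unstable branch closure with a one-sided homoclinic tangency

Negative answer to Q1.  The surface is the plane, the diffeomorphism is the Henon-like map
`H (x, y) = (y, phi y - x / 1000)`, where `phi` is a smooth function with slope `100.00001` at the
saddle `0`.  The map has a horseshoe whose fold falls into the basin of a sink, and the unstable
branch has one one-sided quadratic tangency with the stable manifold from the side of the sink.

Chainability: a point `z` of the closure is encoded by the second coordinates `Y z j` of its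
backward orbit; the continuous functions `z ↦ Gam M (Y z) N` (compositions of inverse branches
of the one-dimensional map `phi`, folded at the old times `M < j ≤ N`, resolving at the recent
times `j ≤ M`) have arbitrarily small fibres.
-/

namespace Pool.Agent.Results.MP_fe4422_gt.ChainableTangency

open Set
open Pool.Agent.MP_fe4422_gt

/-- There are a smooth diffeomorphism `f` of the plane, a hyperbolic saddle fixed point `p` of `f`,
and a point `q = γu tu = γs ts`, `tu > 0`, of the branch `γu '' Ioi 0` of the unstable manifold of
`p` and of the stable manifold of `p` at which the intersection is not topologically transverse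
(it is a one-sided quadratic tangency), such that the closure of the branch is a chainable
continuum. -/
theorem result : ∃ (f : ℝ × ℝ ≃ ℝ × ℝ) (p : ℝ × ℝ) (γu γs : ℝ → ℝ × ℝ) (tu ts : ℝ),
    IsDiffeo f ∧ IsSaddle f p ∧ IsParam γu (Wu f p) p ∧ IsParam γs (Ws f p) p ∧
    0 < tu ∧ γu tu = γs ts ∧ ¬ TopTransverse γu γs tu ts ∧ OneSidedTangency γu γs tu ts ∧
    IsChainableContinuum (closure (γu '' Ioi 0)) :=
  ⟨H, 0, gu, gs, 13, 13, H_isDiffeo, H_isSaddle, gu_param, gs_param, by norm_num, meet,
    not_transverse, oneSided, K_chainable⟩

end Pool.Agent.Results.MP_fe4422_gt.ChainableTangency
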